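import Mathlib

/-!
# Project COVPROD: disproof of the covering product conjecture (S11390, MP_c83c77_co)

Euclidean ball, random unimodular lattice.  `R d = sqrt (d / (2 pi e))` is (up to `exp (o(d))`)
the radius of the ball of volume one.
-/

open MeasureTheory Metric Real

namespace Pool.Agent.H624R3.CP

/-- Euclidean space. -/
abbrev E (d : ℕ) := EuclideanSpace ℝ (Fin d)

/-- The lattice point `M z`. -/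
noncomputable def lp {d : ℕ} (M : Matrix (Fin d) (Fin d) ℝ) (z : Fin d → ℤ) : E d :=
  WithLp.toLp 2 (M.mulVec (fun i => (z i : ℝ)))

/-- Volume of the unit ball of dimension `n`. -/
noncomputable def vb (n : ℕ) : ℝ := (volume (closedBall (0 : E n) 1)).toReal

/-- Gram determinant. -/
noncomputable def gram {d j : ℕ} (v : Fin j → E d) : ℝ :=
  (Matrix.of fun a b => inner ℝ (v a) (v b)).det

/-- Tuples contained with the origin in a ball of radius `ρ` (centre `p` anywhere). -/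
def Bset (d j : ℕ) (ρ : ℝ) : Set (Fin j → E d) :=
  {v | ∃ p : E d, ‖p‖ ≤ ρ ∧ ∀ l, ‖v l - p‖ ≤ ρ}

/-- Tuples contained with the origin in a ball of radius `ρ` and with small volume. -/
def Rset (d j : ℕ) (ρ κ : ℝ) : Set (Fin j → E d) :=
  {v | v ∈ Bset d j ρ ∧ gram v ≤ κ ^ (2 * j)}

/-- The reference radius. -/
noncomputable def Rd (d : ℕ) : ℝ := √((d : ℝ) / (2 * π * exp 1))

/-- `κ` with `κ^2 = (21/20) ρ^2 / e`, `ρ = (11/10) R`. -/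
noncomputable def kap (d : ℕ) : ℝ := √((21 / 20) / exp 1) * ((11 / 10) * Rd d)

/-! ### Random lattice -/

/-- LATA. Number of `a` with all `W l` in the lattice `{w : w 0 + ∑_{i>0} a_i w_i = 0 mod q}`. -/
def TaskLATA : Prop := ∀ (n j q : ℕ) (B : ℝ) (_ : Fact q.Prime) (_ : 1 ≤ j) (_ : j ≤ n)
  (W : Fin j → Fin (n + 1) → ℤ), LinearIndependent ℝ (fun l i => (W l i : ℝ)) →
  (∀ l i, |(W l i : ℝ)| ≤ B) → (j.factorial : ℝ) * B ^ j < q →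
  (Nat.card {a : Fin n → ZMod q // ∀ l, (W l 0 : ZMod q) + ∑ i : Fin n, a i * (W l i.succ : ZMod q) = 0})
    ≤ q ^ (n - j)

/-- LATB. Integer points in a large dilate of a compact set of tuples. -/
def TaskLATB : Prop := ∀ (d j : ℕ) (R : Set (Fin j → E d)), IsCompact R → ∀ ε : ℝ, 0 < ε →
  ∃ X0 : ℝ, 0 < X0 ∧ ∀ X : ℝ, X0 ≤ X →
    {W : Fin j → Fin d → ℤ | (fun l => (X⁻¹ : ℝ) • (WithLp.toLp 2 (fun i => (W l i : ℝ)) : E d)) ∈ R}.Finite ∧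
    (Set.ncard {W : Fin j → Fin d → ℤ |
      (fun l => (X⁻¹ : ℝ) • (WithLp.toLp 2 (fun i => (W l i : ℝ)) : E d)) ∈ R} : ℝ)
      ≤ ((volume R).toReal + ε) * X ^ (d * j)

/-- LAT. A unimodular lattice without independent tuples in prescribed compact sets of small
total volume. -/
def TaskLAT : Prop := ∀ d : ℕ, 2 ≤ d → ∀ R : (j : ℕ) → Set (Fin j → E d),
  (∀ j, 1 ≤ j → j < d → IsCompact (R j)) →
  (∑ j ∈ Finset.Ico 1 d, (volume (R j)).toReal) < 1 →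
  ∃ M : Matrix (Fin d) (Fin d) ℝ, |M.det| = 1 ∧
    ∀ j, 1 ≤ j → j < d → ∀ v : Fin j → Fin d → ℤ,
      LinearIndependent ℝ (fun l => lp M (v l)) → (fun l => lp M (v l)) ∉ R j

/-! ### Volumes -/

/-- BALL. -/
def TaskBALL : Prop := ∀ d : ℕ, 1 ≤ d → 0 < vb d ∧ vb d * Rd d ^ d ≤ 1 ∧
  vb d = π ^ ((d : ℝ) / 2) / Gamma ((d : ℝ) / 2 + 1)

/-- VBP. -/
def TaskVBP : Prop := ∀ a b d : ℕ, a + b = d → 10 * a ≤ d → vb a * vb b ≤ vb d * exp ((21 / 125) * d)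

/-- BSET. -/
def TaskBSET : Prop := ∀ (d j : ℕ) (ρ η : ℝ), 1 ≤ d → 0 < ρ → 0 < η →
  IsCompact (Bset d j ρ) ∧
  (volume (Bset d j ρ)).toReal ≤ ((ρ + η) / η) ^ d * (vb d * (ρ + η) ^ d) ^ j

/-- INF: integral of a negative power of the distance to a subspace over a ball. -/
def TaskINF : Prop := ∀ (d m s : ℕ) (F : Submodule ℝ (E d)) (p : E d) (ρ : ℝ), 0 < ρ →
  Module.finrank ℝ F = m → m + s < d →
  ∫⁻ v in closedBall p ρ, ENNReal.ofReal ((infDist v (F : Set (E d)) ^ s)⁻¹)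
    ≤ ENNReal.ofReal (d * vb m * vb (d - m) * ρ ^ (d - s))

/-- RSET. -/
def TaskRSET : Prop := ∀ (d j : ℕ) (ρ κ η : ℝ), 1 ≤ j → 10 * j ≤ d → 0 < ρ → 0 < κ → 0 < η →
  IsCompact (Rset d j ρ κ) ∧
  (volume (Rset d j ρ κ)).toReal ≤ ((ρ + η) / η) ^ d *
    (κ ^ (j * (d - j)) * (d : ℝ) ^ j * (ρ + η) ^ (j * j) * vb d ^ j * exp ((21 / 125) * d) ^ j)

/-- The good lattices. -/
structure Good (d : ℕ) (M : Matrix (Fin d) (Fin d) ℝ) : Prop where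
  det : |M.det| = 1
  lam : ∀ z : Fin d → ℤ, z ≠ 0 → Rd d / 2 < ‖lp M z‖
  free : ∀ v : Fin 20000 → Fin d → ℤ, LinearIndependent ℝ (fun l => lp M (v l)) →
    (fun l => lp M (v l)) ∉ Bset d 20000 ((999 / 1000) * Rd d)
  vol : ∀ j, 40 ≤ j → 10 * j ≤ d → ∀ v : Fin j → Fin d → ℤ,
    LinearIndependent ℝ (fun l => lp M (v l)) →
    (fun l => lp M (v l)) ∉ Rset d j ((11 / 10) * Rd d) (kap d)

/-- GOOD. -/
def TaskGOOD : Prop := ∃ d0 : ℕ, ∀ d ≥ d0, ∃ M : Matrix (Fin d) (Fin d) ℝ, Good d M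

/-! ### Counting -/

/-- PACK. -/
def TaskPACK : Prop := ∀ (d m : ℕ) (T : Finset (E d)) (F : AffineSubspace ℝ (E d)) (p : E d)
  (ρ l : ℝ), 0 < ρ → 0 < l → Module.finrank ℝ F.direction ≤ m → (∀ x ∈ T, x ∈ F) →
  (∀ x ∈ T, ‖x - p‖ ≤ ρ) → (∀ x ∈ T, ∀ y ∈ T, x ≠ y → l ≤ ‖x - y‖) →
  (T.card : ℝ) ≤ (1 + 2 * ρ / l) ^ m

/-- DETI: sum of the principal minors of a Gram matrix of vectors in dimension `n`. -/
def TaskDETI : Prop := ∀ (n k : ℕ) (ι : Type) (_ : Fintype ι) (_ : DecidableEq ι) (u : ι → E n) (x : ℝ),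
  1 ≤ n → 0 < x →
  x ^ k * ∑ f : (Fin k ↪ ι), gram (fun l => u (f l)) ≤ k.factorial * (1 + x * (∑ i, ‖u i‖ ^ 2) / n) ^ n

/-- STEP. One step of the dimension descent. -/
def TaskSTEP : Prop := ∃ m0 : ℕ, ∀ m ≥ m0, ∀ (d k b : ℕ) (T : Finset (E d))
  (F : AffineSubspace ℝ (E d)) (p : E d) (ρ κ : ℝ), k = m - (m / 200 + 1) →
  0 < ρ → 0 < κ → (21 / 20) * ρ ^ 2 ≤ κ ^ 2 * exp 1 →
  Module.finrank ℝ F.direction = m → (∀ x ∈ T, x ∈ F) → (∀ x ∈ T, ‖x - p‖ ≤ ρ) →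
  (∀ F' : AffineSubspace ℝ (E d), Module.finrank ℝ F'.direction ≤ k →
    ∀ T' : Finset (E d), T' ⊆ T → (∀ x ∈ T', x ∈ F') → T'.card ≤ b) →
  (∀ w : Fin (k + 1) → E d, (∀ l, w l ∈ T) → AffineIndependent ℝ w →
    κ ^ (2 * k) ≤ gram (fun l : Fin k => w l.succ - w 0)) →
  T.card ≤ 4 * m * b

/-- COUNT. -/
def TaskCOUNT : Prop := ∀ ε : ℝ, 0 < ε → ∃ d0 : ℕ, ∀ d ≥ d0, ∀ M : Matrix (Fin d) (Fin d) ℝ,
  Good d M → ∀ (S : Submodule ℝ (E d)), 10 * Module.finrank ℝ S ≤ d → ∀ p : E d,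
  ∀ T : Finset (Fin d → ℤ), (∀ z ∈ T, lp M z ∈ S ∧ ‖lp M z - p‖ ≤ (11 / 10) * Rd d) →
  (T.card : ℝ) ≤ exp (ε * d)

/-- COUNTZ. -/
def TaskCOUNTZ : Prop := ∀ ε : ℝ, 0 < ε → ∃ d0 : ℕ, ∀ d ≥ d0, ∀ M : Matrix (Fin d) (Fin d) ℝ,
  Good d M → ∀ p : E d,
  ∀ T : Finset (Fin d → ℤ), (∀ z ∈ T, ‖lp M z - p‖ ≤ (999 / 1000) * Rd d) →
  (T.card : ℝ) ≤ exp (ε * d)

/-! ### Covering by a variational argument -/

/-- The projection norm. -/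
noncomputable def pn {d : ℕ} (S : Submodule ℝ (E d)) (x : E d) : ℝ := ‖S.starProjection x‖

/-- The dual lattice point. -/
noncomputable def dp {d : ℕ} (M : Matrix (Fin d) (Fin d) ℝ) (z : Fin d → ℤ) : E d :=
  lp (M⁻¹).transpose z

/-- SPEC. -/
def TaskSPEC : Prop := ∀ (d : ℕ) (M : Matrix (Fin d) (Fin d) ℝ) (H : E d → ℝ)
  (S : Submodule ℝ (E d)) (x0 : E d) (r : ℝ), M.det ≠ 0 → ContDiff ℝ 1 H → HasCompactSupport H →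
  0 ≤ r → (∀ z : Fin d → ℤ, r ≤ pn S (x0 - dp M z)) →
  4 * π ^ 2 * r ^ 2 * ((∫ y, H y ^ 2) - ∑' z : {z : Fin d → ℤ // z ≠ 0}, ∫ y, |H y| * |H (y + lp M z)|)
    ≤ (∫ y, pn S (gradient H y) ^ 2)
      + ∑' z : {z : Fin d → ℤ // z ≠ 0}, ∫ y, pn S (gradient H y) * pn S (gradient H (y + lp M z))

/-- SUB. The same on the subspace `S`. -/
def TaskSUB : Prop := ∀ (d : ℕ) (M : Matrix (Fin d) (Fin d) ℝ)
  (S : Submodule ℝ (E d)) (f : S → ℝ) (x0 : E d) (r : ℝ), M.det ≠ 0 → ContDiff ℝ 1 f →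
  HasCompactSupport f → 0 ≤ r → (∀ z : Fin d → ℤ, r ≤ pn S (x0 - dp M z)) →
  4 * π ^ 2 * r ^ 2 * ((∫ y : S, f y ^ 2) -
      ∑' z : {z : Fin d → ℤ // z ≠ 0 ∧ lp M z ∈ S}, ∫ y : S, |f y| * |f (y + ⟨lp M z, z.2.2⟩)|)
    ≤ (∫ y : S, ‖gradient f y‖ ^ 2)
      + ∑' z : {z : Fin d → ℤ // z ≠ 0 ∧ lp M z ∈ S},
          ∫ y : S, ‖gradient f y‖ * ‖gradient f (y + ⟨lp M z, z.2.2⟩)‖

/-- The radial integral. -/
noncomputable def II (i : ℕ) (ρ : ℝ) (m : ℕ) : ℝ :=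
  ∫ u in closedBall (0 : E i) ρ, (1 - ‖u‖ ^ 2 / ρ ^ 2) ^ m

/-- IVAL. -/
def TaskIVAL : Prop := ∀ (i m : ℕ) (ρ : ℝ), 1 ≤ i → 0 < ρ →
  II i ρ 0 = vb i * ρ ^ i ∧ ((i : ℝ) + 2 * (m + 1)) * II i ρ (m + 1) = 2 * (m + 1) * II i ρ m

/-- LP. -/
def TaskLP : Prop := ∀ (d i k : ℕ) (M : Matrix (Fin d) (Fin d) ℝ)
  (S : Submodule ℝ (E d)) (x0 : E d) (r ρ O : ℝ), M.det ≠ 0 → Module.finrank ℝ S = i → 1 ≤ i →
  2 ≤ k → 0 < ρ → 0 ≤ r → (∀ z : Fin d → ℤ, r ≤ pn S (x0 - dp M z)) →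
  (∀ T : Finset (Fin d → ℤ), (∀ z ∈ T, z ≠ 0 ∧ lp M z ∈ S) →
    vb i * ∑ z ∈ T, (max 0 (ρ ^ 2 - ‖lp M z‖ ^ 2 / 4)) ^ ((i : ℝ) / 2) ≤ O) →
  4 * π ^ 2 * r ^ 2 * (II i ρ (2 * k) - O)
    ≤ (k * i * (i + 4 * k) / ((4 * k - 2) * ρ ^ 2)) * II i ρ (2 * k) + (4 * k ^ 2 / ρ ^ 2) * O

/-- STAR. -/
def TaskSTAR : Prop := ∀ (d i : ℕ) (M : Matrix (Fin d) (Fin d) ℝ)
  (S : Submodule ℝ (E d)) (ρ η n : ℝ), M.det ≠ 0 → Module.finrank ℝ S = i → 1 ≤ i →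
  0 < η → η ≤ ρ →
  (∀ p : E d, ∀ T : Finset (Fin d → ℤ),
    (∀ z ∈ T, lp M z ∈ S ∧ ‖lp M z - p‖ ≤ √(ρ ^ 2 + 2 * η * ρ)) → (T.card : ℝ) ≤ n) →
  ∀ T : Finset (Fin d → ℤ), (∀ z ∈ T, lp M z ∈ S) →
    ∑ z ∈ T, (max 0 (ρ ^ 2 - ‖lp M z‖ ^ 2 / 4)) ^ ((i : ℝ) / 2)
      ≤ (ρ / η) * n * (√(ρ ^ 2 + 2 * η * ρ)) ^ i

/-- COV. -/
def TaskCOV : Prop := ∃ ε : ℝ, 0 < ε ∧ ∃ d0 : ℕ, ∀ d ≥ d0, ∀ M : Matrix (Fin d) (Fin d) ℝ,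
  |M.det| = 1 → (∀ z : Fin d → ℤ, z ≠ 0 → Rd d / 2 < ‖lp M z‖) →
  ∀ (S : Submodule ℝ (E d)) (i : ℕ) (ρ : ℝ), Module.finrank ℝ S = i → d ≤ 1000 * i →
  (9 / 10) * Rd d ≤ ρ → ρ ≤ (12 / 10) * Rd d →
  (∀ p : E d, ∀ T : Finset (Fin d → ℤ), (∀ z ∈ T, lp M z ∈ S ∧ ‖lp M z - p‖ ≤ ρ) →
    (T.card : ℝ) ≤ exp (ε * d)) →
  ∀ x0 : E d, ∃ z : Fin d → ℤ, pn S (x0 - dp M z) ≤ (1002 / 1000) * i / (4 * π * ρ)

/-! ### End -/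

/-- The bounds for the covering minima. -/
noncomputable def rr (d i : ℕ) : ℝ :=
  if 10 * i ≤ d then (1002 / 1000) * (max i (d / 1000 + 1) : ℕ) / (4 * π * ((11 / 10) * Rd d))
  else (1002 / 1000) * i / (4 * π * ((999 / 1000) * Rd d))

/-- NUM. -/
def TaskNUM : Prop := ∃ d0 : ℕ, ∀ d ≥ d0,
  (∏ i ∈ Finset.Icc 1 d, rr d i) * (π ^ ((d : ℝ) / 2) / Gamma ((d : ℝ) / 2 + 1)) < ((d : ℝ) + 1) / 2 ^ d

/-- FIN. -/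
def TaskFIN : Prop := ∀ (d : ℕ) (M : Matrix (Fin d) (Fin d) ℝ) (r : ℕ → ℝ), 1 ≤ d → |M.det| = 1 →
  (∀ i, 1 ≤ i → i ≤ d → 0 < r i) →
  (∀ (i : ℕ) (S : Submodule ℝ (E d)), 1 ≤ i → Module.finrank ℝ S = i → ∀ x0 : E d,
    ∃ z : Fin d → ℤ, pn S (x0 - dp M z) ≤ r i) →
  ∃ K : Set (Fin d → ℝ), Convex ℝ K ∧ IsCompact K ∧ (interior K).Nonempty ∧
    (∏ i : Fin d, sInf {μ : ℝ | 0 < μ ∧
          ∀ A : AffineSubspace ℝ (Fin d → ℝ), (A : Set (Fin d → ℝ)).Nonempty →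
            Module.finrank ℝ A.direction = d - (i.val + 1) →
            ∃ x ∈ K, ∃ z : Fin d → ℤ, μ • x + (fun j => (z j : ℝ)) ∈ A})
        * (MeasureTheory.volume K).toReal ≤ (∏ i ∈ Finset.Icc 1 d, r i) * vb d

end Pool.Agent.H624R3.CP
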