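import Pool.Agent.H624R3.CP.Stmts

open MeasureTheory Metric Real

namespace Pool.Agent.H624R3.CP

theorem exists_sup {d : ℕ} (S : Submodule ℝ (E d)) (n : ℕ) (h1 : Module.finrank ℝ S ≤ n)
    (h2 : n ≤ d) : ∃ S' : Submodule ℝ (E d), S ≤ S' ∧ Module.finrank ℝ S' = n := by
  induction n, h1 using Nat.le_induction with
  | base => exact ⟨S, le_rfl, rfl⟩
  | succ n hn ih =>
    obtain ⟨S', hS, hf⟩ := ih (by omega)
    have hne : S' ≠ ⊤ := by
      intro h
      have : Module.finrank ℝ S' = d := by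
        rw [h, finrank_top]; simp
      omega
    obtain ⟨x, -, hx⟩ := SetLike.exists_of_lt (lt_top_iff_ne_top.mpr hne)
    refine ⟨S' ⊔ Submodule.span ℝ {x}, le_trans hS le_sup_left, ?_⟩
    have hx0 : x ≠ 0 := by
      rintro rfl; exact hx (Submodule.zero_mem _)
    have hd : Disjoint S' (Submodule.span ℝ {x}) := by
      rw [Submodule.disjoint_span_singleton' hx0]
      exact hx
    have := Submodule.finrank_sup_add_finrank_inf_eq S' (Submodule.span ℝ {x})
    rw [hd.eq_bot, finrank_bot, finrank_span_singleton hx0, hf] at this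
    simpa using this

theorem pn_mono {d : ℕ} {S S' : Submodule ℝ (E d)} (h : S ≤ S') (x : E d) : pn S x ≤ pn S' x := by
  unfold pn
  have h1 : S.starProjection x = S.starProjection (S'.starProjection x) := by
    have := Submodule.starProjection_comp_starProjection_of_le h
    exact (congrArg (fun f => f x) this).symm
  rw [h1]
  exact Submodule.norm_starProjection_apply_le _ _

theorem Rd_pos {d : ℕ} (h : 1 ≤ d) : 0 < Rd d := by
  unfold Rd
  have : (0 : ℝ) < d := by exact_mod_cast h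
  positivity

theorem final (hB : TaskBALL) (hG : TaskGOOD) (hC : TaskCOUNT) (hCZ : TaskCOUNTZ)
    (hV : TaskCOV) (hN : TaskNUM) (hF : TaskFIN) :
    ¬ (∀ d : ℕ, 1 ≤ d → ∀ K : Set (Fin d → ℝ), Convex ℝ K → IsCompact K → (interior K).Nonempty →
      (∏ i : Fin d, sInf {μ : ℝ | 0 < μ ∧
          ∀ A : AffineSubspace ℝ (Fin d → ℝ), (A : Set (Fin d → ℝ)).Nonempty →
            Module.finrank ℝ A.direction = d - (i.val + 1) →
            ∃ x ∈ K, ∃ z : Fin d → ℤ, μ • x + (fun j => (z j : ℝ)) ∈ A})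
        * (MeasureTheory.volume K).toReal ≥ ((d : ℝ) + 1) / 2 ^ d) := by
  intro hall
  obtain ⟨ε, hε, d1, hcov⟩ := hV
  obtain ⟨d2, hc⟩ := hC ε hε
  obtain ⟨d3, hcz⟩ := hCZ ε hε
  obtain ⟨d4, hn⟩ := hN
  obtain ⟨d5, hg⟩ := hG
  obtain ⟨d, hd1, hd2, hd3, hd4, hd5, hd6⟩ :
      ∃ d : ℕ, d ≥ d1 ∧ d ≥ d2 ∧ d ≥ d3 ∧ d ≥ d4 ∧ d ≥ d5 ∧ d ≥ 100000 :=
    ⟨d1 + d2 + d3 + d4 + d5 + 100000, by omega, by omega, by omega, by omega, by omega, by omega⟩
  obtain ⟨M, hM⟩ := hg d hd5
  have hR : 0 < Rd d := Rd_pos (by omega)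
  have hcover : ∀ (i : ℕ) (S : Submodule ℝ (E d)), 1 ≤ i → Module.finrank ℝ S = i → ∀ x0 : E d,
      ∃ z : Fin d → ℤ, pn S (x0 - dp M z) ≤ rr d i := by
    intro i S hi hS x0
    have hid : i ≤ d := by
      have := Submodule.finrank_le S
      rw [hS] at this
      simpa using this
    by_cases h10 : 10 * i ≤ d
    · obtain ⟨S', hSS, hf⟩ := exists_sup S (max i (d / 1000 + 1)) (by omega) (by omega)
      obtain ⟨z, hz⟩ := hcov d hd1 M hM.det hM.lam S' (max i (d / 1000 + 1)) ((11 / 10) * Rd d) hf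
        (by omega) (by linarith) (by linarith)
        (fun p T hT => hc d hd2 M hM S' (by rw [hf]; omega) p T hT) x0
      refine ⟨z, (pn_mono hSS _).trans ?_⟩
      unfold rr
      rw [if_pos h10]
      exact hz
    · obtain ⟨z, hz⟩ := hcov d hd1 M hM.det hM.lam S i ((999 / 1000) * Rd d) hS
        (by omega) (by linarith) (by linarith)
        (fun p T hT => hcz d hd3 M hM p T (fun z hz => (hT z hz).2)) x0
      refine ⟨z, ?_⟩
      unfold rr
      rw [if_neg h10]
      exact hz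
  have hpos : ∀ i, 1 ≤ i → i ≤ d → 0 < rr d i := by
    intro i hi _
    unfold rr
    split_ifs
    · have : (0 : ℝ) < ((max i (d / 1000 + 1) : ℕ) : ℝ) := by
        have : 0 < max i (d / 1000 + 1) := by omega
        exact_mod_cast this
      positivity
    · have : (0 : ℝ) < (i : ℝ) := by exact_mod_cast hi
      positivity
  obtain ⟨K, hK1, hK2, hK3, hK4⟩ := hF d M (rr d) (by omega) hM.det hpos hcover
  have h1 := hall d (by omega) K hK1 hK2 hK3
  have h2 := hn d hd4
  rw [← (hB d (by omega)).2.2] at h2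
  linarith

end Pool.Agent.H624R3.CP
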