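import Pool.Agent.H624R3.CP.Stmts

set_option autoImplicit false

open Matrix Module

namespace Pool.Agent.H624R3.CP.LATAT

/-- independent rows over a field: some maximal minor is not zero -/
theorem exists_minor {K : Type} [Field K] {j N : ℕ} (A : Matrix (Fin j) (Fin N) K)
    (hA : LinearIndependent K A.row) :
    ∃ e : Fin j → Fin N, (A.submatrix id e).det ≠ 0 := by
  classical
  obtain ⟨κ, a, ha, hspan, hli⟩ := exists_linearIndependent' K (A.col)
  have : Finite κ := Finite.of_injective a ha
  let _ : Fintype κ := Fintype.ofFinite κ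
  have h1 : A.rank = j := by rw [hA.rank_matrix, Fintype.card_fin]
  have h2 : finrank K (Submodule.span K (Set.range (A.col ∘ a))) = Fintype.card κ :=
    finrank_span_eq_card hli
  have h3 : Fintype.card κ = Fintype.card (Fin j) := by
    rw [← h2, hspan, ← Matrix.rank_eq_finrank_span_cols, h1, Fintype.card_fin]
  let ε : Fin j ≃ κ := (Fintype.equivOfCardEq h3).symm
  refine ⟨a ∘ ε, ?_⟩
  have h4 : LinearIndependent K (A.submatrix id (a ∘ ε)).col :=
    hli.comp ε ε.injective
  have h5 := Matrix.linearIndependent_cols_iff_isUnit.1 h4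
  exact ((Matrix.isUnit_iff_isUnit_det _).1 h5).ne_zero

theorem main (n j q : ℕ) (B : ℝ) (hq : Fact q.Prime) (hj1 : 1 ≤ j) (hjn : j ≤ n)
    (W : Fin j → Fin (n + 1) → ℤ) (hW : LinearIndependent ℝ (fun l i => (W l i : ℝ)))
    (hB : ∀ l i, |(W l i : ℝ)| ≤ B) (hBq : (j.factorial : ℝ) * B ^ j < q) :
    (Nat.card {a : Fin n → ZMod q //
      ∀ l, (W l 0 : ZMod q) + ∑ i : Fin n, a i * (W l i.succ : ZMod q) = 0}) ≤ q ^ (n - j) := by
  classical
  -- the minor
  let A : Matrix (Fin j) (Fin (n + 1)) ℝ := Matrix.of fun l i => (W l i : ℝ)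
  obtain ⟨e, he⟩ := exists_minor A hW
  let D : Matrix (Fin j) (Fin j) ℤ := Matrix.of fun l k => W l (e k)
  have hDr : (A.submatrix id e).det = ((D.det : ℤ) : ℝ) := by
    rw [Int.cast_det]; rfl
  have hD0 : D.det ≠ 0 := by
    intro h
    apply he
    rw [hDr, h, Int.cast_zero]
  have hDb : |((D.det : ℤ) : ℝ)| ≤ (j.factorial : ℝ) * B ^ j := by
    rw [← hDr]
    have := Matrix.det_le (A := A.submatrix id e) (abv := AbsoluteValue.abs) (x := B)
      (fun l k => hB l (e k))
    simpa [Fintype.card_fin, nsmul_eq_mul] using this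
  have hDq : ((D.det : ℤ) : ZMod q) ≠ 0 := by
    intro h
    rw [ZMod.intCast_zmod_eq_zero_iff_dvd] at h
    have h2 := Int.le_of_dvd (abs_pos.2 hD0) ((dvd_abs _ _).2 h)
    have h3 : (q : ℝ) ≤ |((D.det : ℤ) : ℝ)| := by
      rw [← Int.cast_abs]; exact_mod_cast h2
    linarith
  -- rows mod q are independent
  let F := ZMod q
  let Wq : Matrix (Fin j) (Fin (n + 1)) F := Matrix.of fun l i => (W l i : F)
  have hmin : (Wq.submatrix id e).det ≠ 0 := by
    have : (Wq.submatrix id e).det = ((D.det : ℤ) : F) := by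
      rw [Int.cast_det]; rfl
    rw [this]; exact hDq
  have hWq : ∀ c : Fin j → F, (∀ i, ∑ l, c l * Wq l i = 0) → c = 0 := by
    intro c hc
    refine Matrix.eq_zero_of_vecMul_eq_zero hmin ?_
    funext k
    exact hc (e k)
  -- the linear map
  rcases isEmpty_or_nonempty {a : Fin n → ZMod q //
      ∀ l, (W l 0 : ZMod q) + ∑ i : Fin n, a i * (W l i.succ : ZMod q) = 0} with hE | ⟨⟨a0, ha0⟩⟩
  · rw [Nat.card_of_isEmpty]; exact Nat.zero_le _
  let Nm : Matrix (Fin j) (Fin n) F := Matrix.of fun l i => (W l i.succ : F)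
  have hN : LinearIndependent F Nm.row := by
    rw [Fintype.linearIndependent_iff]
    intro c hc l
    have hc' : ∀ i : Fin n, ∑ l, c l * (W l i.succ : F) = 0 := by
      intro i
      have := congrFun hc i
      simpa [Nm, Matrix.row, Finset.sum_apply] using this
    have h0 : ∑ l, c l * (W l 0 : F) = 0 := by
      have h1 : ∀ l, (W l 0 : F) = -∑ i : Fin n, a0 i * (W l i.succ : F) := fun l =>
        eq_neg_of_add_eq_zero_left (ha0 l)
      calc ∑ l, c l * (W l 0 : F) = ∑ l, c l * (-∑ i : Fin n, a0 i * (W l i.succ : F)) :=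
            Finset.sum_congr rfl fun l _ => by rw [← h1 l]
        _ = -∑ l, ∑ i : Fin n, a0 i * (c l * (W l i.succ : F)) := by
            rw [← Finset.sum_neg_distrib]
            refine Finset.sum_congr rfl fun l _ => ?_
            rw [mul_neg, Finset.mul_sum]
            congr 1
            refine Finset.sum_congr rfl fun i _ => ?_
            ring
        _ = -∑ i : Fin n, a0 i * ∑ l, c l * (W l i.succ : F) := by
            rw [Finset.sum_comm]
            simp only [Finset.mul_sum]
        _ = 0 := by simp [hc']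
    have := hWq c (fun i => by
      refine Fin.cases ?_ (fun i => ?_) i
      · exact h0
      · exact hc' i)
    rw [this]; rfl
  have hrank : Nm.rank = j := by rw [hN.rank_matrix, Fintype.card_fin]
  let φ := Nm.mulVecLin
  have hker : finrank F (LinearMap.ker φ) = n - j := by
    have h1 := LinearMap.finrank_range_add_finrank_ker φ
    have h2 : finrank F (LinearMap.range φ) = j := hrank
    rw [h2, Module.finrank_fin_fun] at h1
    omega
  have hcard : Nat.card (LinearMap.ker φ) = q ^ (n - j) := by
    rw [Nat.card_eq_fintype_card, Module.card_eq_pow_finrank (K := F), hker, ZMod.card]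
  rw [← hcard]
  have hmem : ∀ a : {a : Fin n → ZMod q //
      ∀ l, (W l 0 : ZMod q) + ∑ i : Fin n, a i * (W l i.succ : ZMod q) = 0},
      a.1 - a0 ∈ LinearMap.ker φ := by
    rintro ⟨a, ha⟩
    rw [LinearMap.mem_ker]
    show Nm.mulVec (a - a0) = 0
    funext l
    have h1 := ha l
    have h2 := ha0 l
    have h3 : ∑ i : Fin n, a i * (W l i.succ : ZMod q) - ∑ i : Fin n, a0 i * (W l i.succ : ZMod q)
        = 0 := by linear_combination h1 - h2
    rw [← Finset.sum_sub_distrib] at h3
    simp only [Matrix.mulVec, dotProduct, Pi.sub_apply, Pi.zero_apply]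
    rw [← h3]
    refine Finset.sum_congr rfl fun i _ => ?_
    simp only [Nm, Matrix.of_apply]
    ring
  refine Nat.card_le_card_of_injective (fun a => (⟨a.1 - a0, hmem a⟩ : LinearMap.ker φ)) ?_
  intro a b hab
  have := congrArg Subtype.val hab
  simp only at this
  exact Subtype.ext (sub_left_injective this)

end Pool.Agent.H624R3.CP.LATAT

namespace Pool.Agent.H624R3.CP

theorem taskLATA : TaskLATA := fun n j q B hq h1 h2 W hW hB hBq =>
  LATAT.main n j q B hq h1 h2 W hW hB hBq

end Pool.Agent.H624R3.CP
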