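import Pool.Agent.H624R3.CP.Stmts

/-!
# LATB: integer points in a large dilate of a compact set of tuples (helper444)
-/

open MeasureTheory Metric Real

namespace Pool.Agent.H624R3.CP.LATBh444

open Pool.Agent.H624R3.CP

/-- The scaled tuple. -/
noncomputable def pt {d j : ℕ} (X : ℝ) (W : Fin j → Fin d → ℤ) : Fin j → E d :=
  fun l => (X⁻¹ : ℝ) • (WithLp.toLp 2 (fun i => (W l i : ℝ)) : E d)

/-- The half-open cube in one copy of Euclidean space. -/
def cube {d : ℕ} (X : ℝ) (w : Fin d → ℤ) : Set (E d) :=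
  (WithLp.ofLp) ⁻¹' (Set.pi Set.univ (fun i => Set.Ico (X⁻¹ * (w i : ℝ)) (X⁻¹ * ((w i : ℝ) + 1))))

/-- The cell of a tuple. -/
def cell {d j : ℕ} (X : ℝ) (W : Fin j → Fin d → ℤ) : Set (Fin j → E d) :=
  Set.pi Set.univ (fun l => cube X (W l))

lemma measurableSet_box {d : ℕ} (X : ℝ) (w : Fin d → ℤ) :
    MeasurableSet (Set.pi Set.univ (fun i => Set.Ico (X⁻¹ * (w i : ℝ)) (X⁻¹ * ((w i : ℝ) + 1)))) :=
  MeasurableSet.univ_pi (fun _ => measurableSet_Ico)

lemma measurableSet_cube {d : ℕ} (X : ℝ) (w : Fin d → ℤ) : MeasurableSet (cube X w) :=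
  (PiLp.volume_preserving_ofLp (Fin d)).measurable (measurableSet_box X w)

lemma volume_cube {d : ℕ} (X : ℝ) (w : Fin d → ℤ) :
    volume (cube X w) = ENNReal.ofReal X⁻¹ ^ d := by
  unfold cube
  rw [(PiLp.volume_preserving_ofLp (Fin d)).measure_preimage (measurableSet_box X w).nullMeasurableSet,
    Real.volume_pi_Ico]
  simp only [mul_add, mul_one, add_sub_cancel_left, Finset.prod_const, Finset.card_univ,
    Fintype.card_fin]

lemma measurableSet_cell {d j : ℕ} (X : ℝ) (W : Fin j → Fin d → ℤ) : MeasurableSet (cell X W) :=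
  MeasurableSet.univ_pi (fun l => measurableSet_cube X (W l))

lemma volume_cell {d j : ℕ} (X : ℝ) (W : Fin j → Fin d → ℤ) :
    volume (cell X W) = ENNReal.ofReal X⁻¹ ^ (d * j) := by
  unfold cell
  rw [volume_pi_pi]
  simp only [volume_cube, Finset.prod_const, Finset.card_univ, Fintype.card_fin, pow_mul]

lemma floor_of_mem_cell {d j : ℕ} {X : ℝ} (hX : 0 < X) {W : Fin j → Fin d → ℤ} {v : Fin j → E d}
    (hv : v ∈ cell X W) (l : Fin j) (i : Fin d) : ⌊X * v l i⌋ = W l i := by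
  have h := hv l (Set.mem_univ l)
  have h2 := h i (Set.mem_univ i)
  simp only [Set.mem_Ico] at h2
  obtain ⟨h3, h4⟩ := h2
  rw [Int.floor_eq_iff]
  constructor
  · have := mul_le_mul_of_nonneg_left h3 hX.le
    rwa [← mul_assoc, mul_inv_cancel₀ hX.ne', one_mul] at this
  · have := mul_lt_mul_of_pos_left h4 hX
    rwa [← mul_assoc, mul_inv_cancel₀ hX.ne', one_mul] at this

lemma cell_disjoint {d j : ℕ} {X : ℝ} (hX : 0 < X) {W W' : Fin j → Fin d → ℤ} (h : W ≠ W') :
    Disjoint (cell X W) (cell X W') := by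
  rw [Set.disjoint_left]
  intro v hv hv'
  apply h
  funext l i
  rw [← floor_of_mem_cell hX hv l i, ← floor_of_mem_cell hX hv' l i]

lemma dist_pt_le {d j : ℕ} {X : ℝ} (hX : 0 < X) {W : Fin j → Fin d → ℤ} {v : Fin j → E d}
    (hv : v ∈ cell X W) : dist v (pt X W) ≤ X⁻¹ * d := by
  have hXi : 0 ≤ X⁻¹ := inv_nonneg.mpr hX.le
  refine (dist_pi_le_iff (by positivity)).mpr (fun l => ?_)
  rw [EuclideanSpace.dist_eq]
  refine Real.sqrt_le_iff.mpr ⟨by positivity, ?_⟩
  have hb : ∀ i : Fin d, dist (v l i) (pt X W l i) ^ 2 ≤ (X⁻¹) ^ 2 := by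
    intro i
    have h := hv l (Set.mem_univ l)
    have h2 := h i (Set.mem_univ i)
    simp only [Set.mem_Ico] at h2
    obtain ⟨h3, h4⟩ := h2
    have hp : pt X W l i = X⁻¹ * (W l i : ℝ) := by
      simp [pt]
    rw [hp, Real.dist_eq, sq_abs]
    have h5 : 0 ≤ v l i - X⁻¹ * (W l i : ℝ) := by
      have : X⁻¹ * (W l i : ℝ) ≤ v l i := h3
      linarith
    have h6 : v l i - X⁻¹ * (W l i : ℝ) ≤ X⁻¹ := by
      have : v l i < X⁻¹ * ((W l i : ℝ) + 1) := h4
      rw [mul_add, mul_one] at this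
      linarith
    exact pow_le_pow_left₀ h5 h6 2
  calc ∑ i : Fin d, dist (v l i) (pt X W l i) ^ 2 ≤ ∑ i : Fin d, (X⁻¹) ^ 2 :=
        Finset.sum_le_sum (fun i _ => hb i)
    _ = d * (X⁻¹) ^ 2 := by simp
    _ ≤ (X⁻¹ * d) ^ 2 := by
        rw [mul_pow, mul_comm]
        refine mul_le_mul_of_nonneg_left ?_ (by positivity)
        have : (d : ℝ) ≤ (d : ℝ) * d := by exact_mod_cast Nat.le_mul_self d
        nlinarith

lemma finite_set {d j : ℕ} {R : Set (Fin j → E d)} (hR : IsCompact R) {X : ℝ} (hX : 0 < X) :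
    {W : Fin j → Fin d → ℤ | pt X W ∈ R}.Finite := by
  obtain ⟨B, hB⟩ := hR.isBounded.exists_norm_le
  refine Set.Finite.subset (Set.Finite.pi' (fun _ : Fin j => Set.Finite.pi' (fun _ : Fin d =>
    Set.finite_Icc (-⌈B * X⌉) ⌈B * X⌉))) ?_
  intro W hW l i
  have h1 : ‖pt X W‖ ≤ B := hB _ hW
  have h2 : ‖pt X W l‖ ≤ B := (norm_le_pi_norm _ l).trans h1
  have h3 : ‖pt X W l i‖ ≤ B := (PiLp.norm_apply_le _ i).trans h2
  have hp : pt X W l i = X⁻¹ * (W l i : ℝ) := by
    simp [pt]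
  rw [hp, Real.norm_eq_abs, abs_mul, abs_of_pos (inv_pos.mpr hX)] at h3
  have h4 : |(W l i : ℝ)| ≤ B * X := by
    have := mul_le_mul_of_nonneg_left h3 hX.le
    rw [← mul_assoc, mul_inv_cancel₀ hX.ne', one_mul] at this
    linarith
  have h5 := abs_le.mp h4
  have h6 : B * X ≤ (⌈B * X⌉ : ℝ) := Int.le_ceil _
  constructor
  · have : (-(⌈B * X⌉ : ℝ)) ≤ (W l i : ℝ) := by linarith [h5.1]
    exact_mod_cast this
  · have : (W l i : ℝ) ≤ (⌈B * X⌉ : ℝ) := by linarith [h5.2]
    exact_mod_cast this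

lemma card_mul_le {d j : ℕ} {R : Set (Fin j → E d)} {X δ : ℝ} (hX : 0 < X)
    (hδ : X⁻¹ * d ≤ δ) (S : Finset (Fin j → Fin d → ℤ)) (hS : ∀ W ∈ S, pt X W ∈ R) :
    (S.card : ENNReal) * ENNReal.ofReal X⁻¹ ^ (d * j) ≤ volume (cthickening δ R) := by
  calc (S.card : ENNReal) * ENNReal.ofReal X⁻¹ ^ (d * j)
      = ∑ W ∈ S, volume (cell X W) := by
        simp only [volume_cell, Finset.sum_const, nsmul_eq_mul]
    _ = volume (⋃ W ∈ S, cell X W) := by
        rw [measure_biUnion_finset]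
        · intro W _ W' _ h
          exact cell_disjoint hX h
        · intro W _
          exact measurableSet_cell X W
    _ ≤ volume (cthickening δ R) := by
        apply measure_mono
        intro v hv
        simp only [Set.mem_iUnion] at hv
        obtain ⟨W, hW, hv⟩ := hv
        exact mem_cthickening_of_dist_le v (pt X W) δ R (hS W hW) ((dist_pt_le hX hv).trans hδ)

theorem taskLATB : TaskLATB := by
  intro d j R hR ε hε
  have hfin : volume R ≠ ⊤ := hR.measure_lt_top.ne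
  have ht := tendsto_measure_cthickening_of_isCompact (μ := (volume : Measure (Fin j → E d))) hR
  have hlt : volume R < volume R + ENNReal.ofReal ε :=
    ENNReal.lt_add_right hfin (by simpa using hε)
  have hev := ht.eventually (gt_mem_nhds hlt)
  obtain ⟨δ, hδ, hball⟩ := Metric.eventually_nhds_iff.mp hev
  have hδ2 : volume (cthickening (δ / 2) R) < volume R + ENNReal.ofReal ε := by
    apply hball
    rw [Real.dist_eq, sub_zero, abs_of_pos (by linarith)]
    linarith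
  refine ⟨(d + 1) / (δ / 2), by positivity, ?_⟩
  intro X hXX
  have hX : 0 < X := lt_of_lt_of_le (by positivity) hXX
  have hd : X⁻¹ * d ≤ δ / 2 := by
    rw [div_le_iff₀ (by linarith)] at hXX
    rw [inv_mul_le_iff₀ hX]
    linarith
  have hf := finite_set hR hX
  refine ⟨hf, ?_⟩
  have hc := card_mul_le hX hd hf.toFinset (R := R) (fun W hW => by simpa using hW)
  have hc2 : (hf.toFinset.card : ENNReal) * ENNReal.ofReal X⁻¹ ^ (d * j)
      ≤ volume R + ENNReal.ofReal ε := hc.trans hδ2.le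
  have hc3 := ENNReal.toReal_mono (ENNReal.add_ne_top.mpr ⟨hfin, ENNReal.ofReal_ne_top⟩) hc2
  rw [ENNReal.toReal_add hfin ENNReal.ofReal_ne_top, ENNReal.toReal_ofReal hε.le,
    ENNReal.toReal_mul, ENNReal.toReal_natCast, ENNReal.toReal_pow,
    ENNReal.toReal_ofReal (inv_nonneg.mpr hX.le), inv_pow] at hc3
  have hpos : 0 < X ^ (d * j) := by positivity
  rw [← div_eq_mul_inv, div_le_iff₀ hpos] at hc3
  have hcard : Set.ncard {W : Fin j → Fin d → ℤ | pt X W ∈ R} = hf.toFinset.card :=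
    Set.ncard_eq_toFinset_card _ hf
  have : (Set.ncard {W : Fin j → Fin d → ℤ | pt X W ∈ R} : ℝ)
      ≤ ((volume R).toReal + ε) * X ^ (d * j) := by
    rw [hcard]
    exact hc3
  exact this

end Pool.Agent.H624R3.CP.LATBh444
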