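import Pool.Agent.H624R3.CP.Stmts

open MeasureTheory Metric Real Module
open scoped ENNReal Function

namespace Pool.Agent.H624R3.CP.PACK

lemma card_sep {V : Type*} [NormedAddCommGroup V] [NormedSpace ℝ V] [FiniteDimensional ℝ V]
    (s : Finset V) (c : V) {ρ l : ℝ} (hρ : 0 < ρ) (hl : 0 < l)
    (hs : ∀ x ∈ s, ‖x - c‖ ≤ ρ) (h : ∀ x ∈ s, ∀ y ∈ s, x ≠ y → l ≤ ‖x - y‖) :
    (s.card : ℝ) ≤ (1 + 2 * ρ / l) ^ finrank ℝ V := by
  borelize V
  let μ : Measure V := Measure.addHaar
  have ρpos : 0 < ρ + l / 2 := by positivity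
  have lpos : 0 < l / 2 := by positivity
  set A := ⋃ c ∈ s, ball (c : V) (l / 2) with hA
  have D : Set.Pairwise (s : Set V) (Disjoint on fun c => ball (c : V) (l / 2)) := by
    rintro c hc d hd hcd
    apply ball_disjoint_ball
    rw [dist_eq_norm]
    have := h c hc d hd hcd
    linarith
  have A_subset : A ⊆ ball c (ρ + l / 2) := by
    refine Set.iUnion₂_subset fun x hx => ?_
    apply ball_subset_ball'
    rw [dist_eq_norm]
    have := hs x hx
    linarith
  have I :
    (s.card : ℝ≥0∞) * ENNReal.ofReal ((l / 2) ^ finrank ℝ V) * μ (ball 0 1) ≤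
      ENNReal.ofReal ((ρ + l / 2) ^ finrank ℝ V) * μ (ball 0 1) :=
    calc
      (s.card : ℝ≥0∞) * ENNReal.ofReal ((l / 2) ^ finrank ℝ V) * μ (ball 0 1) = μ A := by
        rw [hA, measure_biUnion_finset D fun c _ => measurableSet_ball]
        simp only [μ.addHaar_ball_of_pos _ lpos]
        simp only [Finset.sum_const, nsmul_eq_mul, mul_assoc]
      _ ≤ μ (ball c (ρ + l / 2)) := measure_mono A_subset
      _ = ENNReal.ofReal ((ρ + l / 2) ^ finrank ℝ V) * μ (ball 0 1) := by
        simp only [μ.addHaar_ball_of_pos _ ρpos]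
  have J : (s.card : ℝ≥0∞) * ENNReal.ofReal ((l / 2) ^ finrank ℝ V) ≤
      ENNReal.ofReal ((ρ + l / 2) ^ finrank ℝ V) :=
    (ENNReal.mul_le_mul_iff_left (measure_ball_pos _ _ zero_lt_one).ne' measure_ball_lt_top.ne).1 I
  have K := ENNReal.toReal_le_of_le_ofReal (pow_nonneg ρpos.le _) J
  rw [ENNReal.toReal_mul, ENNReal.toReal_natCast, ENNReal.toReal_ofReal (by positivity)] at K
  have L : (1 + 2 * ρ / l) = (ρ + l / 2) / (l / 2) := by
    field_simp
    ring
  rw [L, div_pow, le_div_iff₀ (by positivity)]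
  exact K

theorem pack_ok : TaskPACK := by
  intro d m T F p ρ l hρ hl hF hTF hTp hTs
  have h1 : (1 : ℝ) ≤ 1 + 2 * ρ / l := by
    have : 0 ≤ 2 * ρ / l := by positivity
    linarith
  rcases T.eq_empty_or_nonempty with rfl | ⟨x0, hx0⟩
  · simp
    positivity
  · set V := F.direction with hV
    set f : E d → V := fun x => V.orthogonalProjectionOnto (x - x0) with hf
    have hfx : ∀ x ∈ T, (f x : E d) = x - x0 := by
      intro x hx
      have h2 : x - x0 ∈ V := AffineSubspace.vsub_mem_direction (hTF x hx) (hTF x0 hx0)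
      exact Submodule.starProjection_eq_self_iff.2 h2
    have hsub : ∀ x ∈ T, ∀ y ∈ T, ‖f x - f y‖ = ‖x - y‖ := by
      intro x hx y hy
      rw [Submodule.coe_norm, Submodule.coe_sub, hfx x hx, hfx y hy]
      congr 1
      abel
    have hinj : Set.InjOn f T := by
      intro x hx y hy hxy
      have := hsub x hx y hy
      rw [hxy, sub_self, norm_zero] at this
      exact sub_eq_zero.1 (norm_eq_zero.1 this.symm)
    have hcard : (T.image f).card = T.card := Finset.card_image_of_injOn hinj
    rw [← hcard]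
    refine (card_sep (T.image f) (V.orthogonalProjectionOnto (p - x0)) hρ hl ?_ ?_).trans
      (pow_le_pow_right₀ h1 hF)
    · intro y hy
      obtain ⟨x, hx, rfl⟩ := Finset.mem_image.1 hy
      rw [hf]
      simp only []
      rw [← map_sub]
      refine (V.norm_orthogonalProjectionOnto_apply_le _).trans ?_
      have : x - x0 - (p - x0) = x - p := by abel
      rw [this]
      exact hTp x hx
    · intro y hy z hz hyz
      obtain ⟨x, hx, rfl⟩ := Finset.mem_image.1 hy
      obtain ⟨x', hx', rfl⟩ := Finset.mem_image.1 hz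
      rw [hsub x hx x' hx']
      exact hTs x hx x' hx' fun h => hyz (by rw [h])

end Pool.Agent.H624R3.CP.PACK
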